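import Pool.Agent.Helper20.RG.St3
import Pool.Agent.Helper4.LM.M_BBC
import Pool.Agent.Helper29.LM.M_PH
import Pool.Agent.Helper42.LM.M_LC
import Pool.Agent.Helper42.LM.M_MZ1
import Pool.Agent.Helper27.LM.M_HLW
import Pool.Agent.Helper17.LM.M_HLS

/-!
# Project RG, module COR: the strong type estimate
-/

set_option autoImplicit false

open MeasureTheory Set Filter Topology
open scoped ENNReal RealInnerProductSpace

namespace Pool.Agent.Helper3.RG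

open Pool.Agent.Helper20.RG
open Pool.Agent.Helper68.LM (Pl BB Bd Av HL ft fm DQ StLC StHLS StBBC)

theorem cBBC : StBBC := Pool.Agent.Helper4.LM.hBBC Pool.Agent.Helper29.LM.hPH
theorem cLC : StLC := Pool.Agent.Helper42.LM.hLC
theorem cHLS : StHLS :=
  Pool.Agent.Helper17.LM.hHLS Pool.Agent.Helper27.LM.hHLW (Pool.Agent.Helper42.LM.hMZ1 cLC)

/-- truncation from below -/
noncomputable def trc (Λ : ℝ) (g : Pl → ℝ) (x : Pl) : ℝ := if Λ / 2 ≤ g x then g x else 0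

theorem trc_BB {Λ : ℝ} {g : Pl → ℝ} (hg : BB g) : BB (trc Λ g) := by
  obtain ⟨hm, K, hK, hs⟩ := hg
  refine ⟨?_, K, fun x => ?_, fun x hx => ?_⟩
  · exact Measurable.ite (measurableSet_le measurable_const hm) hm measurable_const
  · unfold trc
    split_ifs
    · exact hK x
    · rw [abs_zero]
      exact (abs_nonneg _).trans (hK x)
  · unfold trc
    rw [hs x hx]
    simp

theorem trc_nonneg {Λ : ℝ} {g : Pl → ℝ} (hg : ∀ x, 0 ≤ g x) (x : Pl) : 0 ≤ trc Λ g x := by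
  unfold trc
  split_ifs
  · exact hg x
  · exact le_refl _

theorem trc_dich (Λ : ℝ) (g : Pl → ℝ) (x : Pl) : trc Λ g x = 0 ∨ Λ / 2 ≤ trc Λ g x := by
  unfold trc
  split_ifs with h
  · exact Or.inr h
  · exact Or.inl rfl

theorem trc_HL (Λ ρ : ℝ) (g : Pl → ℝ) (x : Pl) : HL ρ (trc Λ g) x ≤ HL ρ g x := by
  unfold HL
  refine iSup_mono (fun k => lintegral_mono (fun w => ?_))
  show ‖trc Λ g (x - (2 : ℝ) ^ k • w)‖ₑ ≤ ‖g (x - (2 : ℝ) ^ k • w)‖ₑ
  unfold trc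
  split_ifs
  · exact le_refl _
  · simp

theorem graph_lip {φ τ : ℝ → ℝ} (h : Graph φ τ) (a b : ℝ) : |φ b - φ a| ≤ |b - a| := by
  have key : ∀ a b : ℝ, a ≤ b → |φ b - φ a| ≤ b - a := by
    intro a b hab
    obtain ⟨h1, h2⟩ := h.2 a b hab
    have ha := abs_le.mp (h.1 a)
    have hb := abs_le.mp (h.1 b)
    rw [abs_le]
    constructor <;> nlinarith
  rcases le_total a b with hab | hab
  · rw [abs_of_nonneg (sub_nonneg.mpr hab)]
    exact key a b hab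
  · rw [abs_sub_comm, abs_sub_comm b a, abs_of_nonneg (sub_nonneg.mpr hab)]
    exact key b a hab

theorem graph_cont {φ τ : ℝ → ℝ} (h : Graph φ τ) : Continuous φ := by
  have : LipschitzWith 1 φ := by
    refine LipschitzWith.of_dist_le_mul (fun a b => ?_)
    rw [Real.dist_eq, Real.dist_eq, NNReal.coe_one, one_mul]
    exact graph_lip h b a
  exact this.continuous

theorem arc_facts (hPT : StPT) {φ τ : ℝ → ℝ} (h : Graph φ τ) (c : Pl) :
    Bd (‖c‖ + |φ 0| + 3) 1 (arc c φ) ∧ arc c φ univ = 1 := by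
  obtain ⟨hp1, -, hp3, -, hp5, -, -, -⟩ := hPT
  have hcont : Continuous (fun t : ℝ => c + pt t (φ t)) := by
    refine continuous_const.add ?_
    exact hp5.comp (continuous_id.prodMk (graph_cont h))
  have hmeas := hcont.measurable
  have huniv : arc c φ univ = 1 := by
    unfold arc
    rw [Measure.map_apply hmeas MeasurableSet.univ, preimage_univ, Measure.restrict_apply_univ,
      Real.volume_Icc]
    simp
  refine ⟨⟨?_, ?_⟩, huniv⟩
  · unfold arc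
    rw [Measure.map_apply hmeas Metric.isClosed_closedBall.measurableSet.compl,
      Measure.restrict_apply (hmeas Metric.isClosed_closedBall.measurableSet.compl)]
    convert measure_empty (μ := (volume : Measure ℝ))
    rw [Set.eq_empty_iff_forall_notMem]
    rintro t ⟨h1, h2⟩
    apply h1
    rw [Metric.mem_closedBall, dist_zero_right]
    have h3 := (hp3 (pt t (φ t))).2.2.1
    rw [(hp1 t (φ t)).1, (hp1 t (φ t)).2] at h3
    have h4 : |t| ≤ 1 := by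
      rw [abs_le]
      exact ⟨by linarith [h2.1], h2.2⟩
    have h5 := graph_lip h 0 t
    rw [sub_zero] at h5
    have h6 : |φ t| ≤ |φ 0| + |φ t - φ 0| := by
      calc |φ t| = |φ 0 + (φ t - φ 0)| := by ring_nf
        _ ≤ _ := abs_add_le _ _
    calc ‖c + pt t (φ t)‖ ≤ ‖c‖ + ‖pt t (φ t)‖ := norm_add_le _ _
      _ ≤ ‖c‖ + |φ 0| + 3 := by linarith
  · rw [huniv]
    simp

/-- the level sums are small -/
theorem lev_sum (u₀ : ℕ) (hu₀ : 1 ≤ u₀) (Λ : ℝ) (hΛ : 0 < Λ) (a : ℕ → ℝ)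
    (ha : ∀ i : ℕ, |a i| < Λ / (100 * ((u₀ + i + 1 : ℕ) : ℝ) ^ 2)) :
    ∑' i : ℕ, ‖a i‖ₑ ≤ ENNReal.ofReal (Λ / 100) := by
  refine ENNReal.tsum_le_of_sum_range_le (fun n => ?_)
  have h1 : ∀ i ∈ Finset.range n, ‖a i‖ₑ ≤
      ENNReal.ofReal (Λ / 100 * (1 / ((i : ℝ) + 1) - 1 / ((i : ℝ) + 1 + 1))) := by
    intro i _
    rw [Real.enorm_eq_ofReal_abs]
    refine ENNReal.ofReal_le_ofReal ((ha i).le.trans ?_)
    have h2 : (1 : ℝ) ≤ u₀ := by exact_mod_cast hu₀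
    have hi : (0 : ℝ) ≤ i := Nat.cast_nonneg i
    push_cast
    rw [div_sub_div _ _ (by positivity) (by positivity), div_mul_div_comm,
      div_le_div_iff₀ (by positivity) (by positivity)]
    have h3 : ((i : ℝ) + 1) * ((i : ℝ) + 1 + 1) ≤ ((u₀ : ℝ) + i + 1) ^ 2 := by nlinarith
    have h4 : 0 ≤ Λ * 100 := by positivity
    nlinarith
  refine (Finset.sum_le_sum h1).trans ?_
  rw [← ENNReal.ofReal_sum_of_nonneg]
  · refine ENNReal.ofReal_le_ofReal ?_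
    rw [← Finset.mul_sum]
    have h5 : ∑ i ∈ Finset.range n, (1 / ((i : ℝ) + 1) - 1 / ((i : ℝ) + 1 + 1)) =
        1 - 1 / ((n : ℝ) + 1) := by
      have := Finset.sum_range_sub' (fun i : ℕ => 1 / ((i : ℝ) + 1)) n
      push_cast at this
      rw [this]
      simp
    rw [h5]
    have h6 : 0 ≤ 1 / ((n : ℝ) + 1) := by positivity
    nlinarith
  · intro i _
    have hi : (0 : ℝ) ≤ i := Nat.cast_nonneg i
    refine mul_nonneg (by positivity) ?_
    rw [sub_nonneg]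
    exact one_div_le_one_div_of_le (by positivity) (by linarith)

/-- the first approximation is controlled by the maximal function -/
theorem Sa_le (hMM : StMM) (hSYS : StSYS) (hHLY : StHLY) {φ τ : ℝ → ℝ} {A σ : ℝ} (c : Pl)
    (hG : Graph φ τ) (hGap : Gap A σ τ) (hA : 0 < A) (hσ : 0 < σ) {u₀ : ℕ} (hu₀ : 1 ≤ u₀)
    {ρ : ℝ} (hρ : 2 * (‖c‖ + |φ 0| + 3 + 3) ≤ ρ) {g : Pl → ℝ} (hg : BB g) (hg0 : ∀ x, 0 ≤ g x)
    (k : ℤ) (x : Pl) {δ : ℝ} (hδ : 0 ≤ δ) (hHL : HL ρ g x ≤ ENNReal.ofReal δ) :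
    Sa c φ τ u₀ k g x ≤ (4 : ℝ) ^ (KA A σ u₀) * δ := by
  have hsys := (hSYS φ τ A σ c hG hGap hA hσ u₀ hu₀).1
  have hY : ∀ j ∈ Finset.range (2 ^ u₀),
      Y (τ (tm u₀ j)) (ce c φ u₀ j) (mm τ u₀ j) (1 / (2 : ℝ) ^ u₀) k g x ≤
        (4 : ℝ) ^ (KA A σ u₀) * δ := by
    intro j hj
    rw [Finset.mem_range] at hj
    have h1 := hHLY (τ (tm u₀ j)) (ce c φ u₀ j) (mm τ u₀ j) (1 / (2 : ℝ) ^ u₀)
      (‖c‖ + |φ 0| + 3) ρ k g x (hsys.slope j hj) (hsys.cen j hj) (by positivity) (by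
        rw [div_le_one (by positivity)]
        exact one_le_pow₀ (by norm_num)) hρ hg hg0
    have h2 : mm τ u₀ j ≤ KA A σ u₀ := (hMM φ τ A σ hG hGap hA hσ u₀ j hu₀ hj).2.2.2.2.2.1
    have h3 : ENNReal.ofReal (Y (τ (tm u₀ j)) (ce c φ u₀ j) (mm τ u₀ j) (1 / (2 : ℝ) ^ u₀) k g x) ≤
        ENNReal.ofReal ((4 : ℝ) ^ (KA A σ u₀) * δ) := by
      refine h1.trans ?_
      rw [ENNReal.ofReal_mul (by positivity)]
      gcongr
      norm_num
    rwa [ENNReal.ofReal_le_ofReal_iff (by positivity)] at h3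
  unfold Sa
  calc (1 / (2 : ℝ) ^ u₀) * ∑ j ∈ Finset.range (2 ^ u₀),
        Y (τ (tm u₀ j)) (ce c φ u₀ j) (mm τ u₀ j) (1 / (2 : ℝ) ^ u₀) k g x
      ≤ (1 / (2 : ℝ) ^ u₀) * ∑ j ∈ Finset.range (2 ^ u₀), (4 : ℝ) ^ (KA A σ u₀) * δ := by
        refine mul_le_mul_of_nonneg_left (Finset.sum_le_sum hY) (by positivity)
    _ = (4 : ℝ) ^ (KA A σ u₀) * δ := by
        rw [Finset.sum_const, Finset.card_range, nsmul_eq_mul]
        push_cast
        field_simp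

/-- pointwise bound at a good point -/
theorem pw (hPT : StPT) (hMM : StMM) (hSYS : StSYS) (hHLY : StHLY) {φ τ : ℝ → ℝ} {A σ : ℝ} (c : Pl)
    (hG : Graph φ τ) (hGap : Gap A σ τ) (hA : 0 < A) (hσ : 0 < σ) {u₀ : ℕ} (hu₀ : 1 ≤ u₀)
    {ρ : ℝ} (hρ : 2 * (‖c‖ + |φ 0| + 3 + 3) ≤ ρ) {g : Pl → ℝ} (hg : BB g) (hg0 : ∀ x, 0 ≤ g x)
    {Λ : ℝ} (hΛ : 0 < Λ) (x : Pl)
    (hdom : ∀ k : ℤ, ENNReal.ofReal (Av (arc c φ) ((2 : ℝ) ^ k) (trc Λ g) x) ≤
      ENNReal.ofReal (4 * Sa c φ τ u₀ k (trc Λ g) x) +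
        4 * ∑' i : ℕ, ‖Sa c φ τ (u₀ + i + 1) k (trc Λ g) x - Sa c φ τ (u₀ + i) k (trc Λ g) x‖ₑ)
    (hHL : HL ρ g x ≤ ENNReal.ofReal (1 / (4 : ℝ) ^ (KA A σ u₀) / 32 * Λ))
    (hlev : ∀ (i : ℕ) (k : ℤ), |Sa c φ τ (u₀ + i + 1) k (trc Λ g) x -
      Sa c φ τ (u₀ + i) k (trc Λ g) x| < Λ / (100 * ((u₀ + i + 1 : ℕ) : ℝ) ^ 2)) :
    (⨆ k : ℤ, ENNReal.ofReal (Av (arc c φ) ((2 : ℝ) ^ k) g x)) ≤ ENNReal.ofReal Λ := by
  refine iSup_le (fun k => ?_)
  obtain ⟨hBd, hone⟩ := arc_facts hPT hG c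
  have h1 : Sa c φ τ u₀ k (trc Λ g) x ≤ Λ / 32 := by
    have := Sa_le hMM hSYS hHLY c hG hGap hA hσ hu₀ hρ (trc_BB (Λ := Λ) hg) (trc_nonneg hg0) k x
      (δ := 1 / (4 : ℝ) ^ (KA A σ u₀) / 32 * Λ) (by positivity) ((trc_HL Λ ρ g x).trans hHL)
    refine this.trans (le_of_eq ?_)
    field_simp
  have h2 := lev_sum u₀ hu₀ Λ hΛ _ (fun i => hlev i k)
  have h3 : ENNReal.ofReal (Av (arc c φ) ((2 : ℝ) ^ k) (trc Λ g) x) ≤ ENNReal.ofReal (Λ / 2) := by
    refine (hdom k).trans ?_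
    calc ENNReal.ofReal (4 * Sa c φ τ u₀ k (trc Λ g) x) +
        4 * ∑' i : ℕ, ‖Sa c φ τ (u₀ + i + 1) k (trc Λ g) x - Sa c φ τ (u₀ + i) k (trc Λ g) x‖ₑ
        ≤ ENNReal.ofReal (Λ / 8) + 4 * ENNReal.ofReal (Λ / 100) := by
          refine add_le_add (ENNReal.ofReal_le_ofReal (by linarith)) ?_
          gcongr
      _ = ENNReal.ofReal (Λ / 8) + ENNReal.ofReal (4 * (Λ / 100)) := by
          rw [ENNReal.ofReal_mul (by norm_num)]
          norm_num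
      _ = ENNReal.ofReal (Λ / 8 + 4 * (Λ / 100)) := by
          rw [ENNReal.ofReal_add (by positivity) (by positivity)]
      _ ≤ ENNReal.ofReal (Λ / 2) := ENNReal.ofReal_le_ofReal (by linarith)
  rw [ENNReal.ofReal_le_ofReal_iff (by positivity)] at h3
  refine ENNReal.ofReal_le_ofReal ?_
  obtain ⟨b1, -, -, -, b5, -, b7⟩ := cBBC
  have hsub : BB (fun y => g y - trc Λ g y) := b1 g (trc Λ g) hg (trc_BB hg)
  have h4 : Av (arc c φ) ((2 : ℝ) ^ k) g x =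
      Av (arc c φ) ((2 : ℝ) ^ k) (trc Λ g) x +
        Av (arc c φ) ((2 : ℝ) ^ k) (fun y => g y - trc Λ g y) x := by
    rw [← b7 (arc c φ) _ 1 ((2 : ℝ) ^ k) (trc Λ g) (fun y => g y - trc Λ g y) x hBd (trc_BB hg) hsub]
    congr 1
    funext y
    ring
  have h5 : ∀ y, |g y - trc Λ g y| ≤ Λ / 2 := by
    intro y
    unfold trc
    split_ifs with h
    · rw [sub_self, abs_zero]; positivity
    · rw [sub_zero, abs_of_nonneg (hg0 y)]
      exact (not_le.mp h).le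
  have h6 := b5 (arc c φ) _ 1 ((2 : ℝ) ^ k) (fun y => g y - trc Λ g y) (Λ / 2) hBd (by norm_num) h5 x
  rw [h4]
  have h7 := (abs_le.mp h6).2
  linarith

/-- measurability of integrals over a variable set -/
theorem meas_par {S : Set (ℝ × Pl)} (hS : MeasurableSet S) {f : Pl → ℝ≥0∞} (hf : Measurable f) :
    Measurable (fun Λ : ℝ => ∫⁻ x in {x | (Λ, x) ∈ S}, f x) := by
  have h1 : (fun Λ : ℝ => ∫⁻ x in {x | (Λ, x) ∈ S}, f x) =
      fun Λ : ℝ => ∫⁻ x, S.indicator (fun p => f p.2) (Λ, x) := by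
    funext Λ
    have hm : MeasurableSet {x : Pl | (Λ, x) ∈ S} := measurable_prodMk_left hS
    rw [← lintegral_indicator hm]
    rfl
  rw [h1]
  exact Measurable.lintegral_prod_right' ((hf.comp measurable_snd).indicator hS)

/-- the numerical series -/
theorem ser {C₃ C ε σ q : ℝ} (hε : 0 < ε) (hσq : σ < q) :
    Summable (fun n : ℕ => C₃ * (2 : ℝ) ^ (-(ε * n)) * C + C₃ * (2 : ℝ) ^ (-(ε * n)) * (C * (n + 1)) +
      C₃ * (n : ℝ) ^ 4 * (2 : ℝ) ^ ((σ - 2) * n) * (C * (2 : ℝ) ^ (-((q - 2) * n)))) := by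
  have hr : ‖(2 : ℝ) ^ (-ε)‖ < 1 := by
    rw [Real.norm_of_nonneg (by positivity)]
    exact Real.rpow_lt_one_of_one_lt_of_neg (by norm_num) (by linarith)
  have hs : ‖(2 : ℝ) ^ (-(q - σ))‖ < 1 := by
    rw [Real.norm_of_nonneg (by positivity)]
    exact Real.rpow_lt_one_of_one_lt_of_neg (by norm_num) (by linarith)
  have h0 := (summable_pow_mul_geometric_of_norm_lt_one 0 hr).mul_left (2 * C₃ * C)
  have h1 := (summable_pow_mul_geometric_of_norm_lt_one 1 hr).mul_left (C₃ * C)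
  have h4 := (summable_pow_mul_geometric_of_norm_lt_one 4 hs).mul_left (C₃ * C)
  refine ((h0.add h1).add h4).congr (fun n => ?_)
  have e1 : (2 : ℝ) ^ (-(ε * n)) = ((2 : ℝ) ^ (-ε)) ^ n := by
    rw [← Real.rpow_natCast, ← Real.rpow_mul (by norm_num)]
    ring_nf
  have e2 : (2 : ℝ) ^ ((σ - 2) * n) * (2 : ℝ) ^ (-((q - 2) * n)) = ((2 : ℝ) ^ (-(q - σ))) ^ n := by
    rw [← Real.rpow_add (by norm_num), ← Real.rpow_natCast, ← Real.rpow_mul (by norm_num)]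
    ring_nf
  rw [e1, ← e2]
  ring

theorem hCOR (hPT : StPT) (hMM : StMM) (hSYS : StSYS) (hDOM : StDOM) (hHLY : StHLY)
    (hF3 : StF3) (hCAL : StCAL) : StCOR := by
  intro φ τ A σ q c hG hGap hA hσ hσq hq
  have hσ0 : 0 < σ := by linarith
  have hq1 : 1 < q := by linarith
  have hq0 : 0 < q := by linarith
  obtain ⟨u₀, ρ₀, C₃, ε, hu₀, hρ₀, hC₃, hε, hF⟩ := hF3 φ τ A σ q c hG hGap hA hσ hσq hq
  obtain ⟨Cc, hCc, hcal⟩ := hCAL q (by linarith)
  set ρ : ℝ := max ρ₀ (2 * (‖c‖ + |φ 0| + 3 + 3)) with hρdef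
  have hρ1 : ρ₀ ≤ ρ := le_max_left _ _
  have hρ2 : 2 * (‖c‖ + |φ 0| + 3 + 3) ≤ ρ := le_max_right _ _
  obtain ⟨hHLm, hHLs⟩ := cHLS
  obtain ⟨CH, hCH, hHL⟩ := hHLs ρ (hρ₀.trans_le hρ1) q hq1
  set e₀ : ℝ := 1 / (4 : ℝ) ^ (KA A σ u₀) / 32 with he₀
  have he₀p : 0 < e₀ := by positivity
  set b : ℕ → ℝ := fun n : ℕ => C₃ * (2 : ℝ) ^ (-(ε * n)) * Cc +
      C₃ * (2 : ℝ) ^ (-(ε * n)) * (Cc * (n + 1)) +
      C₃ * (n : ℝ) ^ 4 * (2 : ℝ) ^ ((σ - 2) * n) * (Cc * (2 : ℝ) ^ (-((q - 2) * n))) with hb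
  have hb0 : ∀ n, 0 ≤ b n := fun n => by simp only [hb]; positivity
  have hbs : Summable (fun i : ℕ => b (u₀ + i + 1)) := by
    have h1 := (summable_nat_add_iff (u₀ + 1)).mpr (ser (C₃ := C₃) (C := Cc) (σ := σ) hε hσq)
    refine h1.congr (fun i => ?_)
    have : u₀ + i + 1 = i + (u₀ + 1) := by ring
    rw [this]
  have hSb : 0 ≤ ∑' i : ℕ, b (u₀ + i + 1) := tsum_nonneg (fun i => hb0 _)
  refine ⟨(1 / e₀) ^ q * CH + ∑' i : ℕ, b (u₀ + i + 1), by positivity, fun g hg hg0 => ?_⟩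
  set F : Pl → ℝ≥0∞ := fun x => ⨆ k : ℤ, ENNReal.ofReal (Av (arc c φ) ((2 : ℝ) ^ k) g x) with hFdef
  obtain ⟨hBd, -⟩ := arc_facts hPT hG c
  obtain ⟨-, -, b3, -, -, -, -⟩ := cBBC
  have hFm : Measurable F := by
    refine Measurable.iSup (fun k => ?_)
    exact (b3 (arc c φ) _ 1 ((2 : ℝ) ^ k) g hBd (by positivity) hg).1.ennreal_ofReal
  set G : ℝ≥0∞ := ∫⁻ x, ENNReal.ofReal (g x) ^ q with hGdef
  have hgm : Measurable g := hg.1
  -- the three integrals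
  set I1 : ℝ → ℝ≥0∞ := fun Λ => ∫⁻ x in {x | Λ / 2 ≤ g x}, ENNReal.ofReal (g x) ^ 2 with hI1
  set I2 : ℕ → ℝ → ℝ≥0∞ := fun u Λ =>
    ∫⁻ x in {x | Λ / 2 ≤ g x ∧ g x < (2 : ℝ) ^ u * Λ}, ENNReal.ofReal (g x) ^ q with hI2
  set I3 : ℕ → ℝ → ℝ≥0∞ := fun u Λ =>
    ∫⁻ x in {x | (2 : ℝ) ^ u * Λ ≤ g x}, ENNReal.ofReal (g x) ^ 2 with hI3
  have mg2 : Measurable (fun x => ENNReal.ofReal (g x) ^ 2) := hgm.ennreal_ofReal.pow_const 2
  have mgq : Measurable (fun x => ENNReal.ofReal (g x) ^ q) := hgm.ennreal_ofReal.pow_const q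
  have mg : Measurable (fun p : ℝ × Pl => g p.2) := hgm.comp measurable_snd
  have mI1 : Measurable I1 := by
    have hS : MeasurableSet {p : ℝ × Pl | p.1 / 2 ≤ g p.2} :=
      measurableSet_le (measurable_fst.div_const 2) mg
    exact meas_par hS mg2
  have mI2 : ∀ u, Measurable (I2 u) := by
    intro u
    have hS : MeasurableSet {p : ℝ × Pl | p.1 / 2 ≤ g p.2 ∧ g p.2 < (2 : ℝ) ^ u * p.1} :=
      (measurableSet_le (measurable_fst.div_const 2) mg).inter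
        (measurableSet_lt mg (measurable_fst.const_mul _))
    exact meas_par hS mgq
  have mI3 : ∀ u, Measurable (I3 u) := by
    intro u
    have hS : MeasurableSet {p : ℝ × Pl | (2 : ℝ) ^ u * p.1 ≤ g p.2} :=
      measurableSet_le (measurable_fst.const_mul _) mg
    exact meas_par hS mg2
  have mw : Measurable (fun Λ : ℝ => ENNReal.ofReal (q * Λ ^ (q - 1))) :=
    ((measurable_id.pow_const (q - 1)).const_mul q).ennreal_ofReal
  have mp2 : Measurable (fun Λ : ℝ => ENNReal.ofReal (Λ ^ (-(2 : ℝ)))) :=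
    (measurable_id.pow_const (-(2 : ℝ))).ennreal_ofReal
  have mpq : Measurable (fun Λ : ℝ => ENNReal.ofReal (Λ ^ (-q))) :=
    (measurable_id.pow_const (-q)).ennreal_ofReal
  -- the bound of the level sets
  set c1 : ℕ → ℝ := fun u => C₃ * (2 : ℝ) ^ (-(ε * u)) with hc1
  set c3 : ℕ → ℝ := fun u => C₃ * (u : ℝ) ^ 4 * (2 : ℝ) ^ ((σ - 2) * u) with hc3
  have hc10 : ∀ u, 0 ≤ c1 u := fun u => by simp only [hc1]; positivity
  have hc30 : ∀ u, 0 ≤ c3 u := fun u => by simp only [hc3]; positivity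
  set Bt : ℕ → ℝ → ℝ≥0∞ := fun u Λ =>
    ENNReal.ofReal (c1 u) * (ENNReal.ofReal (Λ ^ (-(2 : ℝ))) * I1 Λ) +
    ENNReal.ofReal (c1 u) * (ENNReal.ofReal (Λ ^ (-q)) * I2 u Λ) +
    ENNReal.ofReal (c3 u) * (ENNReal.ofReal (Λ ^ (-(2 : ℝ))) * I3 u Λ) with hBt
  have mB1 : ∀ u, Measurable (fun Λ : ℝ =>
      ENNReal.ofReal (c1 u) * (ENNReal.ofReal (Λ ^ (-(2 : ℝ))) * I1 Λ)) :=
    fun u => (mp2.mul mI1).const_mul _
  have mB2 : ∀ u, Measurable (fun Λ : ℝ =>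
      ENNReal.ofReal (c1 u) * (ENNReal.ofReal (Λ ^ (-q)) * I2 u Λ)) :=
    fun u => (mpq.mul (mI2 u)).const_mul _
  have mB3 : ∀ u, Measurable (fun Λ : ℝ =>
      ENNReal.ofReal (c3 u) * (ENNReal.ofReal (Λ ^ (-(2 : ℝ))) * I3 u Λ)) :=
    fun u => (mp2.mul (mI3 u)).const_mul _
  have mBt : ∀ u, Measurable (Bt u) := fun u => ((mB1 u).add (mB2 u)).add (mB3 u)
  have hlevel : ∀ Λ : ℝ, 0 < Λ → volume {x | ENNReal.ofReal Λ < F x} ≤
      volume {x | ENNReal.ofReal (e₀ * Λ) < HL ρ g x} + ∑' i : ℕ, Bt (u₀ + i + 1) Λ := by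
    intro Λ hΛ
    have hdom := hDOM φ τ A σ c hG hGap hA hσ0 u₀ hu₀ (trc Λ g) (trc_BB hg) (trc_nonneg hg0)
    set Sx : ℕ → ℤ → Set Pl := fun i k => {x | HL ρ (trc Λ g) x ≤ ENNReal.ofReal Λ ∧
      Λ / (100 * ((u₀ + i + 1 : ℕ) : ℝ) ^ 2) ≤ |Sa c φ τ (u₀ + i + 1) k (trc Λ g) x -
        Sa c φ τ (u₀ + i + 1 - 1) k (trc Λ g) x|} with hSx
    have hae : {x | ENNReal.ofReal Λ < F x} ≤ᵐ[volume]
        ({x | ENNReal.ofReal (e₀ * Λ) < HL ρ g x} ∪ ⋃ i : ℕ, ⋃ k : ℤ, Sx i k : Set Pl) := by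
      filter_upwards [hdom] with x hx hFx
      by_contra hcon
      have hcon' : ¬ (x ∈ ({x | ENNReal.ofReal (e₀ * Λ) < HL ρ g x} ∪
        ⋃ i : ℕ, ⋃ k : ℤ, Sx i k : Set Pl)) := hcon
      rw [Set.mem_union, not_or] at hcon'
      obtain ⟨h1, h2⟩ := hcon'
      have h1' : HL ρ g x ≤ ENNReal.ofReal (e₀ * Λ) := not_lt.mp h1
      have h3 : ∀ (i : ℕ) (k : ℤ), |Sa c φ τ (u₀ + i + 1) k (trc Λ g) x -
          Sa c φ τ (u₀ + i) k (trc Λ g) x| < Λ / (100 * ((u₀ + i + 1 : ℕ) : ℝ) ^ 2) := by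
        intro i k
        by_contra h4
        apply h2
        rw [Set.mem_iUnion]
        refine ⟨i, ?_⟩
        rw [Set.mem_iUnion]
        refine ⟨k, ?_, not_lt.mp h4⟩
        refine ((trc_HL Λ ρ g x).trans h1').trans (ENNReal.ofReal_le_ofReal ?_)
        have h5 : e₀ ≤ 1 := by
          rw [he₀, div_div, div_le_one (by positivity)]
          have : (1 : ℝ) ≤ (4 : ℝ) ^ (KA A σ u₀) := one_le_pow₀ (by norm_num)
          linarith
        nlinarith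
      have h6 := pw hPT hMM hSYS hHLY c hG hGap hA hσ0 hu₀ hρ2 hg hg0 hΛ x hx h1' h3
      exact absurd hFx (not_lt.mpr h6)
    refine (measure_mono_ae hae).trans ((measure_union_le _ _).trans ?_)
    refine add_le_add (le_refl _) ((measure_iUnion_le _).trans (ENNReal.tsum_le_tsum (fun i => ?_)))
    refine (measure_iUnion_le _).trans ?_
    refine (hF (u₀ + i + 1) ρ Λ (trc Λ g) (by omega) hρ1 hΛ (trc_BB hg)
      (trc_dich Λ g)).trans ?_
    have hpow : (1 : ℝ) ≤ (2 : ℝ) ^ (u₀ + i + 1) := one_le_pow₀ (by norm_num)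
    have hset : MeasurableSet {x : Pl | Λ / 2 ≤ g x} := measurableSet_le measurable_const hgm
    have t1 : ∫⁻ x, ENNReal.ofReal (trc Λ g x) ^ 2 = I1 Λ := by
      simp only [hI1]
      rw [← lintegral_indicator hset]
      refine lintegral_congr (fun x => ?_)
      unfold trc
      by_cases h : Λ / 2 ≤ g x
      · rw [Set.indicator_of_mem (by exact h), if_pos h]
      · rw [Set.indicator_of_notMem (by exact h), if_neg h]
        simp
    have t2 : ∫⁻ x in {x | trc Λ g x < (2 : ℝ) ^ (u₀ + i + 1) * Λ}, ENNReal.ofReal (trc Λ g x) ^ q =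
        I2 (u₀ + i + 1) Λ := by
      have hs1 : MeasurableSet {x : Pl | trc Λ g x < (2 : ℝ) ^ (u₀ + i + 1) * Λ} :=
        measurableSet_lt (trc_BB hg).1 measurable_const
      have hs2 : MeasurableSet {x : Pl | Λ / 2 ≤ g x ∧ g x < (2 : ℝ) ^ (u₀ + i + 1) * Λ} :=
        hset.inter (measurableSet_lt hgm measurable_const)
      simp only [hI2]
      rw [← lintegral_indicator hs1, ← lintegral_indicator hs2]
      refine lintegral_congr (fun x => ?_)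
      by_cases h : Λ / 2 ≤ g x
      · have ht : trc Λ g x = g x := by unfold trc; rw [if_pos h]
        by_cases h' : g x < (2 : ℝ) ^ (u₀ + i + 1) * Λ
        · rw [Set.indicator_of_mem (by show trc Λ g x < _; rw [ht]; exact h'),
            Set.indicator_of_mem (by exact ⟨h, h'⟩), ht]
        · rw [Set.indicator_of_notMem (by show ¬ (trc Λ g x < _); rw [ht]; exact h'),
            Set.indicator_of_notMem (by exact fun hh => h' hh.2)]
      · have ht : trc Λ g x = 0 := by unfold trc; rw [if_neg h]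
        rw [Set.indicator_of_mem (by show trc Λ g x < _; rw [ht]; positivity),
            Set.indicator_of_notMem (by exact fun hh => h hh.1), ht, ENNReal.ofReal_zero,
            ENNReal.zero_rpow_of_pos hq0]
    have t3 : ∫⁻ x in {x | (2 : ℝ) ^ (u₀ + i + 1) * Λ ≤ trc Λ g x}, ENNReal.ofReal (trc Λ g x) ^ 2 =
        I3 (u₀ + i + 1) Λ := by
      have hs1 : MeasurableSet {x : Pl | (2 : ℝ) ^ (u₀ + i + 1) * Λ ≤ trc Λ g x} :=
        measurableSet_le measurable_const (trc_BB hg).1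
      have hs2 : MeasurableSet {x : Pl | (2 : ℝ) ^ (u₀ + i + 1) * Λ ≤ g x} :=
        measurableSet_le measurable_const hgm
      simp only [hI3]
      rw [← lintegral_indicator hs1, ← lintegral_indicator hs2]
      refine lintegral_congr (fun x => ?_)
      by_cases h : Λ / 2 ≤ g x
      · have ht : trc Λ g x = g x := by unfold trc; rw [if_pos h]
        by_cases h' : (2 : ℝ) ^ (u₀ + i + 1) * Λ ≤ g x
        · rw [Set.indicator_of_mem (by show _ ≤ trc Λ g x; rw [ht]; exact h'),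
            Set.indicator_of_mem (by exact h'), ht]
        · rw [Set.indicator_of_notMem (by show ¬ (_ ≤ trc Λ g x); rw [ht]; exact h'),
            Set.indicator_of_notMem (by exact h')]
      · have ht : trc Λ g x = 0 := by unfold trc; rw [if_neg h]
        have h2 : ¬ ((2 : ℝ) ^ (u₀ + i + 1) * Λ ≤ g x) := by
          intro h3
          apply h
          nlinarith
        have h3 : ¬ ((2 : ℝ) ^ (u₀ + i + 1) * Λ ≤ trc Λ g x) := by
          rw [ht, not_le]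
          positivity
        rw [Set.indicator_of_notMem (by exact h3), Set.indicator_of_notMem (by exact h2)]
    rw [t1, t2, t3]
    have hΛ2 : 0 ≤ Λ ^ (-(2 : ℝ)) := by positivity
    have hΛq : 0 ≤ Λ ^ (-q) := by positivity
    have a1 : ENNReal.ofReal (C₃ * (2 : ℝ) ^ (-(ε * ((u₀ + i + 1 : ℕ) : ℝ))) * Λ ^ (-(2 : ℝ))) =
        ENNReal.ofReal (c1 (u₀ + i + 1)) * ENNReal.ofReal (Λ ^ (-(2 : ℝ))) := by
      rw [← ENNReal.ofReal_mul (hc10 _)]
    have a2 : ENNReal.ofReal (C₃ * (2 : ℝ) ^ (-(ε * ((u₀ + i + 1 : ℕ) : ℝ))) * Λ ^ (-q)) =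
        ENNReal.ofReal (c1 (u₀ + i + 1)) * ENNReal.ofReal (Λ ^ (-q)) := by
      rw [← ENNReal.ofReal_mul (hc10 _)]
    have a3 : ENNReal.ofReal (C₃ * ((u₀ + i + 1 : ℕ) : ℝ) ^ 4 *
        (2 : ℝ) ^ ((σ - 2) * ((u₀ + i + 1 : ℕ) : ℝ)) * Λ ^ (-(2 : ℝ))) =
        ENNReal.ofReal (c3 (u₀ + i + 1)) * ENNReal.ofReal (Λ ^ (-(2 : ℝ))) := by
      rw [← ENNReal.ofReal_mul (hc30 _)]
    rw [a1, a2, a3]
    simp only [hBt, mul_assoc]
    exact le_refl _
  -- layer cake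
  rw [cLC q hq0 F hFm]
  have step1 : ∫⁻ Λ in Ioi (0 : ℝ), ENNReal.ofReal (q * Λ ^ (q - 1)) *
      volume {x | ENNReal.ofReal Λ < F x} ≤
      ∫⁻ Λ in Ioi (0 : ℝ), (ENNReal.ofReal (q * Λ ^ (q - 1)) *
        volume {x | ENNReal.ofReal (e₀ * Λ) < HL ρ g x} +
        ∑' i : ℕ, ENNReal.ofReal (q * Λ ^ (q - 1)) * Bt (u₀ + i + 1) Λ) := by
    refine setLIntegral_mono' measurableSet_Ioi (fun Λ hΛ => ?_)
    rw [ENNReal.tsum_mul_left, ← mul_add]
    exact mul_le_mul_right (hlevel Λ hΛ) _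
  refine step1.trans ?_
  have mwB : ∀ i : ℕ, Measurable (fun Λ : ℝ => ENNReal.ofReal (q * Λ ^ (q - 1)) *
      Bt (u₀ + i + 1) Λ) := fun i => mw.mul (mBt _)
  rw [lintegral_add_right _ (Measurable.ennreal_tsum mwB)]
  rw [lintegral_tsum (fun i => (mwB i).aemeasurable)]
  -- the maximal function
  have stepH : ∫⁻ Λ in Ioi (0 : ℝ), ENNReal.ofReal (q * Λ ^ (q - 1)) *
      volume {x | ENNReal.ofReal (e₀ * Λ) < HL ρ g x} ≤
      ENNReal.ofReal ((1 / e₀) ^ q * CH) * G := by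
    have h1 : ∫⁻ Λ in Ioi (0 : ℝ), ENNReal.ofReal (q * Λ ^ (q - 1)) *
        volume {x | ENNReal.ofReal (e₀ * Λ) < HL ρ g x} ≤
        ∫⁻ Λ in Ioi (0 : ℝ), ENNReal.ofReal (q * Λ ^ (q - 1)) *
          volume {x | ENNReal.ofReal Λ < ENNReal.ofReal (1 / e₀) * HL ρ g x} := by
      refine setLIntegral_mono' measurableSet_Ioi (fun Λ hΛ => ?_)
      refine mul_le_mul_right (measure_mono (fun x hx => ?_)) _
      have hΛ' : 0 < Λ := hΛ
      have h2 : ENNReal.ofReal Λ = ENNReal.ofReal (1 / e₀) * ENNReal.ofReal (e₀ * Λ) := by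
        rw [← ENNReal.ofReal_mul (by positivity)]
        congr 1
        field_simp
      show ENNReal.ofReal Λ < ENNReal.ofReal (1 / e₀) * HL ρ g x
      rw [h2]
      exact (ENNReal.mul_lt_mul_iff_right
        (by rw [ne_eq, ENNReal.ofReal_eq_zero, not_le]; positivity) ENNReal.ofReal_ne_top).mpr hx
    refine h1.trans ?_
    rw [← cLC q hq0 (fun x => ENNReal.ofReal (1 / e₀) * HL ρ g x) ((hHLm ρ g hg).const_mul _)]
    simp_rw [ENNReal.mul_rpow_of_nonneg _ _ hq0.le]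
    rw [lintegral_const_mul _ ((hHLm ρ g hg).pow_const q)]
    have h3 : ENNReal.ofReal (1 / e₀) ^ q = ENNReal.ofReal ((1 / e₀) ^ q) :=
      ENNReal.ofReal_rpow_of_nonneg (by positivity) hq0.le
    rw [h3, ENNReal.ofReal_mul (by positivity), mul_assoc]
    exact mul_le_mul_right (hHL g hg hg0) _
  have stepB : ∀ i : ℕ, ∫⁻ Λ in Ioi (0 : ℝ), ENNReal.ofReal (q * Λ ^ (q - 1)) *
      Bt (u₀ + i + 1) Λ ≤ ENNReal.ofReal (b (u₀ + i + 1)) * G := by
    intro i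
    obtain ⟨k1, k2, k3⟩ := hcal g (u₀ + i + 1) hgm hg0
    have e1 : ∀ Λ : ℝ, ENNReal.ofReal (q * Λ ^ (q - 1)) * Bt (u₀ + i + 1) Λ =
        ENNReal.ofReal (c1 (u₀ + i + 1)) * (ENNReal.ofReal (q * Λ ^ (q - 1)) *
          (ENNReal.ofReal (Λ ^ (-(2 : ℝ))) * I1 Λ)) +
        ENNReal.ofReal (c1 (u₀ + i + 1)) * (ENNReal.ofReal (q * Λ ^ (q - 1)) *
          (ENNReal.ofReal (Λ ^ (-q)) * I2 (u₀ + i + 1) Λ)) +
        ENNReal.ofReal (c3 (u₀ + i + 1)) * (ENNReal.ofReal (q * Λ ^ (q - 1)) *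
          (ENNReal.ofReal (Λ ^ (-(2 : ℝ))) * I3 (u₀ + i + 1) Λ)) := by
      intro Λ
      simp only [hBt]
      ring
    simp_rw [e1]
    have m1 : Measurable (fun Λ : ℝ => ENNReal.ofReal (q * Λ ^ (q - 1)) *
        (ENNReal.ofReal (Λ ^ (-(2 : ℝ))) * I1 Λ)) := mw.mul (mp2.mul mI1)
    have m2 : Measurable (fun Λ : ℝ => ENNReal.ofReal (q * Λ ^ (q - 1)) *
        (ENNReal.ofReal (Λ ^ (-q)) * I2 (u₀ + i + 1) Λ)) := mw.mul (mpq.mul (mI2 _))
    have m3 : Measurable (fun Λ : ℝ => ENNReal.ofReal (q * Λ ^ (q - 1)) *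
        (ENNReal.ofReal (Λ ^ (-(2 : ℝ))) * I3 (u₀ + i + 1) Λ)) := mw.mul (mp2.mul (mI3 _))
    rw [lintegral_add_right _ (m3.const_mul _), lintegral_add_right _ (m2.const_mul _),
      lintegral_const_mul _ m1, lintegral_const_mul _ m2, lintegral_const_mul _ m3]
    have hb' : ENNReal.ofReal (b (u₀ + i + 1)) * G =
        ENNReal.ofReal (c1 (u₀ + i + 1)) * (ENNReal.ofReal Cc * G) +
        ENNReal.ofReal (c1 (u₀ + i + 1)) * (ENNReal.ofReal (Cc * (((u₀ + i + 1 : ℕ) : ℝ) + 1)) * G) +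
        ENNReal.ofReal (c3 (u₀ + i + 1)) *
          (ENNReal.ofReal (Cc * (2 : ℝ) ^ (-((q - 2) * ((u₀ + i + 1 : ℕ) : ℝ)))) * G) := by
      rw [← mul_assoc, ← mul_assoc, ← mul_assoc, ← ENNReal.ofReal_mul (hc10 _),
        ← ENNReal.ofReal_mul (hc10 _), ← ENNReal.ofReal_mul (hc30 _), ← add_mul, ← add_mul,
        ← ENNReal.ofReal_add (mul_nonneg (hc10 _) (by positivity))
          (mul_nonneg (hc10 _) (by positivity)),
        ← ENNReal.ofReal_add (add_nonneg (mul_nonneg (hc10 _) (by positivity))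
          (mul_nonneg (hc10 _) (by positivity))) (mul_nonneg (hc30 _) (by positivity))]
    rw [hb']
    exact add_le_add (add_le_add (mul_le_mul_right k1 _) (mul_le_mul_right k2 _))
      (mul_le_mul_right k3 _)
  calc _ ≤ ENNReal.ofReal ((1 / e₀) ^ q * CH) * G +
        ∑' i : ℕ, ENNReal.ofReal (b (u₀ + i + 1)) * G :=
        add_le_add stepH (ENNReal.tsum_le_tsum stepB)
    _ = ENNReal.ofReal ((1 / e₀) ^ q * CH + ∑' i : ℕ, b (u₀ + i + 1)) * G := by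
        rw [ENNReal.tsum_mul_right, ← add_mul, ENNReal.ofReal_add (by positivity) hSb,
          ENNReal.ofReal_tsum_of_nonneg (fun i => hb0 _) hbs]

end Pool.Agent.Helper3.RG
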