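import Pool.Agent.Helper2.RG.St

/-!
# Project RG (MP_76188c_nt), module EXT (helper3): invariant ideals in extensions of prime degree
-/

open scoped Pointwise NumberField
open NumberField Pool.RG UniqueFactorizationMonoid

namespace Pool.Agent.Helper3.RG

section

set_option linter.unusedSectionVars false

variable (K L : Type) [Field K] [NumberField K] [Field L] [NumberField L] [Algebra K L]

theorem perfect_res (q : Ideal (𝓞 K)) [q.IsMaximal] (h0 : q ≠ ⊥) : PerfectField q.ResidueField := by
  have h1 : Finite (𝓞 K ⧸ q) := Ideal.finiteQuotientOfFreeOfNeBot q h0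
  have h2 : Finite q.ResidueField := Finite.of_surjective _ (Ideal.bijective_algebraMap_quotient_residueField q).2
  infer_instance

theorem gg [IsGalois K L] : IsGaloisGroup Gal(L/K) (𝓞 K) (𝓞 L) :=
  IsGaloisGroup.of_isFractionRing Gal(L/K) (𝓞 K) (𝓞 L) K L

theorem smul_map (g : Gal(L/K)) (J : Ideal (𝓞 K)) :
    g • J.map (algebraMap (𝓞 K) (𝓞 L)) = J.map (algebraMap (𝓞 K) (𝓞 L)) := by
  rw [Ideal.pointwise_smul_def, Ideal.map_map]
  congr 1
  ext x
  show ((g • algebraMap (𝓞 K) (𝓞 L) x : 𝓞 L) : L) = _
  exact g.commutes x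

/-- The multiplicity of `Q` in the extension of the prime below it. -/
theorem count_map [IsGalois K L] (Q : Ideal (𝓞 L)) (hQ : Q.IsMaximal) (hQ0 : Q ≠ ⊥) :
    (normalizedFactors ((Q.under (𝓞 K)).map (algebraMap (𝓞 K) (𝓞 L)))).count Q =
      Nat.card (Q.inertia Gal(L/K)) := by
  have := gg K L
  have hq0 : Q.under (𝓞 K) ≠ ⊥ := by
    intro h
    exact hQ0 (Ideal.eq_bot_of_comap_eq_bot h)
  have hqm : (Q.under (𝓞 K)).IsMaximal := Ideal.isMaximal_comap_of_isIntegral_of_isMaximal Q
  have hp := perfect_res K (Q.under (𝓞 K)) hq0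
  rw [Ideal.card_inertia_eq_ramificationIdxIn (G := Gal(L/K)) (Q.under (𝓞 K)) Q,
    Ideal.ramificationIdxIn_eq_ramificationIdx (Q.under (𝓞 K)) Q Gal(L/K),
    Ideal.IsDedekindDomain.ramificationIdx_eq_normalizedFactors_count (Q.under (𝓞 K)) Q
      (Ideal.map_ne_bot_of_ne_bot hq0)]

theorem le_count (P I : Ideal (𝓞 L)) (hP : Prime P) (hI : I ≠ ⊥) (n : ℕ) :
    n ≤ (normalizedFactors I).count P ↔ P ^ n ∣ I := by
  rw [Multiset.le_count_iff_replicate_le, pow_dvd_iff_le_emultiplicity,
    le_emultiplicity_iff_replicate_le_normalizedFactors hP.irreducible hI, normalize_eq]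

theorem smul_ne_bot (g : Gal(L/K)) {P : Ideal (𝓞 L)} (hP0 : P ≠ ⊥) : g • P ≠ ⊥ := by
  intro h
  apply hP0
  rw [← Ideal.smul_bot g] at h
  exact smul_left_cancel g h

theorem count_smul (g : Gal(L/K)) (P I : Ideal (𝓞 L)) (hP : P.IsMaximal) (hP0 : P ≠ ⊥) (hI : I ≠ ⊥) :
    (normalizedFactors I).count P ≤ (normalizedFactors (g • I)).count (g • P) := by
  have hPp : Prime P := Ideal.prime_of_isPrime hP0 hP.isPrime
  have hgP : Prime (g • P) :=
    Ideal.prime_of_isPrime (smul_ne_bot K L g hP0) ((Ideal.IsPrime.smul_iff g).2 hP.isPrime)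
  rw [le_count L (g • P) (g • I) hgP (smul_ne_bot K L g hI)]
  obtain ⟨J, hJ⟩ := (le_count L P I hPp hI _).1 le_rfl
  refine ⟨g • J, ?_⟩
  rw [← smul_pow', ← smul_mul', ← hJ]

theorem main_ext [IsGalois K L] (l : ℕ) (hl : l.Prime) (hfr : Module.finrank K L = l) (n : ℕ) :
    ∀ I : Ideal (𝓞 L), I ≠ ⊥ → (∀ g : Gal(L/K), g • I = I) →
    (∀ P : Ideal (𝓞 L), P.IsMaximal → P.inertia Gal(L/K) = ⊤ → l ∣ (normalizedFactors I).count P) →
    (normalizedFactors I).card ≤ n →
    ∃ J : Ideal (𝓞 K), J.map (algebraMap (𝓞 K) (𝓞 L)) = I := by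
  have hGG := gg K L
  have hcard : Nat.card Gal(L/K) = l := by rw [IsGalois.card_aut_eq_finrank, hfr]
  induction n with
  | zero =>
    intro I hI hinv hcount hc
    refine ⟨⊤, ?_⟩
    rw [Ideal.map_top]
    have h1 : normalizedFactors I = 0 := Multiset.card_eq_zero.1 (by omega)
    have h2 := prod_normalizedFactors_eq hI
    rw [h1, Multiset.prod_zero, normalize_eq, Ideal.one_eq_top] at h2
    exact h2
  | succ n ih =>
    intro I hI hinv hcount hc
    by_cases hI1 : I = ⊤
    · exact ⟨⊤, by rw [Ideal.map_top, hI1]⟩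
    obtain ⟨P, hP, hle⟩ := Ideal.exists_le_maximal I hI1
    have hP0 : P ≠ ⊥ := ne_bot_of_le_ne_bot hI hle
    have hPp : Prime P := Ideal.prime_of_isPrime hP0 hP.isPrime
    have hpos : 1 ≤ (normalizedFactors I).count P := by
      rw [le_count L P I hPp hI, pow_one]
      exact Ideal.dvd_iff_le.2 hle
    set q : Ideal (𝓞 K) := P.under (𝓞 K) with hq
    have hq0 : q ≠ ⊥ := fun h => hP0 (Ideal.eq_bot_of_comap_eq_bot h)
    set Q : Ideal (𝓞 L) := q.map (algebraMap (𝓞 K) (𝓞 L)) with hQ
    have hQ0 : Q ≠ ⊥ := Ideal.map_ne_bot_of_ne_bot hq0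
    -- a maximal ideal containing `Q` lies above `q`
    have hover : ∀ P' : Ideal (𝓞 L), P'.IsMaximal → Q ≤ P' → P'.under (𝓞 K) = q := by
      intro P' hP' hle'
      have hqm : q.IsMaximal := Ideal.isMaximal_comap_of_isIntegral_of_isMaximal P
      have hqm' : (P'.under (𝓞 K)).IsMaximal := Ideal.isMaximal_comap_of_isIntegral_of_isMaximal P'
      exact (hqm.eq_of_le hqm'.ne_top (Ideal.map_le_iff_le_comap.1 hle')).symm
    -- the ideal `Q` divides `I`
    have hdvd : Q ∣ I := by
      rw [dvd_iff_normalizedFactors_le_normalizedFactors hQ0 hI, Multiset.le_iff_count]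
      intro P'
      by_cases hmem : P' ∈ normalizedFactors Q
      · have hP'p : Prime P' := prime_of_normalized_factor P' hmem
        have hP'm : P'.IsMaximal := (Ideal.isPrime_of_prime hP'p).isMaximal hP'p.ne_zero
        have hle' : Q ≤ P' := Ideal.le_of_dvd (dvd_of_mem_normalizedFactors hmem)
        have hu := hover P' hP'm hle'
        obtain ⟨g, hg⟩ := Algebra.IsInvariant.exists_smul_of_under_eq (𝓞 K) (𝓞 L) Gal(L/K) P P'
          (by rw [hu])
        have hc1 : 1 ≤ (normalizedFactors I).count P' := by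
          have := count_smul K L g P I hP hP0 hI
          rw [hinv g, ← hg] at this
          omega
        have hc2 := count_map K L P' hP'm hP'p.ne_zero
        rw [hu] at hc2
        rw [hc2]
        have hc3 : Nat.card (P'.inertia Gal(L/K)) ∣ l := by
          rw [← hcard]; exact Subgroup.card_subgroup_dvd_card _
        rcases (Nat.dvd_prime hl).1 hc3 with h | h
        · rw [h]; exact hc1
        · rw [h]
          have htop : P'.inertia Gal(L/K) = ⊤ := by
            apply Subgroup.eq_top_of_card_eq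
            rw [h, hcard]
          exact Nat.le_of_dvd (by omega) (hcount P' hP'm htop)
      · rw [Multiset.count_eq_zero_of_notMem hmem]; exact Nat.zero_le _
    obtain ⟨I', hI'⟩ := hdvd
    have hI'0 : I' ≠ ⊥ := by
      rintro rfl
      apply hI
      rw [hI', Ideal.mul_bot]
    have hfac : normalizedFactors I = normalizedFactors Q + normalizedFactors I' := by
      rw [hI', normalizedFactors_mul hQ0 hI'0]
    obtain ⟨J', hJ'⟩ := ih I' hI'0 (by
        intro g
        have h1 : Q * (g • I') = Q * I' := by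
          rw [← hI', ← hinv g]
          conv_rhs => rw [hI', smul_mul', smul_map K L g q]
        exact mul_left_cancel₀ hQ0 h1) (by
        intro P' hP'm htop
        have h1 := hcount P' hP'm htop
        rw [hfac, Multiset.count_add] at h1
        refine (Nat.dvd_add_right ?_).1 h1
        by_cases hmem : P' ∈ normalizedFactors Q
        · have hP'p : Prime P' := prime_of_normalized_factor P' hmem
          have hle' : Q ≤ P' := Ideal.le_of_dvd (dvd_of_mem_normalizedFactors hmem)
          have hu := hover P' hP'm hle'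
          have hc2 := count_map K L P' hP'm hP'p.ne_zero
          rw [hu] at hc2
          rw [hc2, htop, Subgroup.card_top, hcard]
        · rw [Multiset.count_eq_zero_of_notMem hmem]; exact dvd_zero _) (by
        have h1 : 0 < (normalizedFactors Q).card := by
          rw [Multiset.card_pos]
          intro h0
          have h2 := prod_normalizedFactors_eq hQ0
          rw [h0, Multiset.prod_zero, normalize_eq] at h2
          have h3 : Q ≤ P := Ideal.map_comap_le
          rw [← h2, Ideal.one_eq_top, top_le_iff] at h3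
          exact hP.ne_top h3
        rw [hfac, Multiset.card_add] at hc
        omega)
    refine ⟨q * J', ?_⟩
    rw [Ideal.map_mul, hJ', hI']

end

theorem tExt : StExt := by
  intro K L _ _ _ _ _ _ l hl hfr a ha hass hcount
  refine main_ext K L l hl hfr _ (Ideal.span {a}) (by simpa using ha) ?_ hcount le_rfl
  intro g
  rw [Ideal.smul_closure, Set.smul_set_singleton]
  exact Ideal.span_singleton_eq_span_singleton.2 (hass g)

end Pool.Agent.Helper3.RG
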