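import Pool.Agent.Helper2.RG.St

/-!
# Project RG (MP_76188c_nt), module UNITS (helper3): the Herbrand quotient inequality for the units
-/

open scoped Pointwise NumberField
open NumberField Pool.RG

namespace Pool.Agent.Helper3.RG

section

set_option linter.unusedSectionVars false

variable (K L : Type) [Field K] [NumberField K] [Field L] [NumberField L] [Algebra K L]

theorem actU_val (g : Gal(L/K)) (x : (𝓞 L)ˣ) : ((actU K L g x : (𝓞 L)ˣ) : L) = g (x : L) := rfl

theorem actU_iter (g : Gal(L/K)) (n : ℕ) (x : (𝓞 L)ˣ) :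
    ((((actU K L g)^[n]) x : (𝓞 L)ˣ) : L) = (g ^ n) (x : L) := by
  induction n with
  | zero => simp
  | succ n ih =>
    rw [Function.iterate_succ_apply', actU_val, ih, pow_succ', AlgEquiv.mul_apply]

theorem units_ext' {x y : (𝓞 L)ˣ} (h : (x : L) = (y : L)) : x = y :=
  Units.ext (RingOfIntegers.ext h)

/-- The inclusion of unit groups. -/
noncomputable def inc : (𝓞 K)ˣ →* (𝓞 L)ˣ := Units.map (algebraMap (𝓞 K) (𝓞 L)).toMonoidHom

theorem inc_val (x : (𝓞 K)ˣ) : ((inc K L x : (𝓞 L)ˣ) : L) = algebraMap K L (x : K) := rfl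

theorem inc_inj : Function.Injective (inc K L) := by
  intro x y h
  have h2 : ((inc K L x : (𝓞 L)ˣ) : L) = ((inc K L y : (𝓞 L)ˣ) : L) := by rw [h]
  rw [inc_val, inc_val] at h2
  exact Units.ext (RingOfIntegers.ext ((algebraMap K L).injective h2))

theorem Nm_val (x : (𝓞 L)ˣ) : ((Nm K L x : (𝓞 K)ˣ) : K) = Algebra.norm K (x : L) := by
  simp [Nm]

end

theorem tUnits (hA : StAlg) : StUnits := by
  classical
  intro K L _ _ _ _ _ _ l g hl hfr hg hcase
  have : NeZero l := ⟨hl.ne_zero⟩
  have : FiniteDimensional K L := Module.finite_of_finrank_pos (by rw [hfr]; exact hl.pos)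
  -- order of the group
  have hcard : Nat.card Gal(L/K) = l := by rw [IsGalois.card_aut_eq_finrank, hfr]
  have hord : orderOf g = l := by
    rw [← hcard]; exact orderOf_eq_card_of_forall_mem_zpowers hg
  -- infinite places
  have hur : IsUnramifiedAtInfinitePlaces K L := by
    rcases hcase with h | h
    · apply IsUnramifiedAtInfinitePlaces_of_odd_finrank
      rw [hfr]
      exact hl.odd_of_ne_two h
    · constructor
      intro w
      rw [InfinitePlace.isUnramified_iff]
      exact Or.inr (h _)
  have hpl := IsUnramifiedAtInfinitePlaces.card_infinitePlace K L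
  rw [hfr] at hpl
  have hposK : 0 < Fintype.card (InfinitePlace K) := Fintype.card_pos
  have hposL : 0 < Fintype.card (InfinitePlace L) := Fintype.card_pos
  -- the fixed points
  have hfix : ∀ x : (𝓞 L)ˣ, x ∈ (inc K L).range ↔ actU K L g x = x := by
    intro x
    constructor
    · rintro ⟨y, rfl⟩
      apply units_ext'
      rw [actU_val, inc_val, AlgEquiv.commutes]
    · intro hx
      have hfixall : ∀ z : (𝓞 L)ˣ, actU K L g z = z → ∃ y : K, algebraMap K L y = (z : L) := by
        intro z hz
        have h1 : ∀ h : Gal(L/K), h (z : L) = (z : L) := by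
          intro h
          have h2 : Subgroup.zpowers g ≤ MulAction.stabilizer Gal(L/K) (z : L) := by
            rw [Subgroup.zpowers_le]
            show g (z : L) = (z : L)
            rw [← actU_val, hz]
          exact h2 (hg h)
        have h3 := (IsGalois.mem_bot_iff_fixed (F := K) (E := L) (z : L)).2 h1
        rwa [IntermediateField.mem_bot] at h3
      obtain ⟨y, hy⟩ := hfixall x hx
      obtain ⟨y', hy'⟩ := hfixall x⁻¹ (by rw [map_inv, hx])
      have hyi : IsIntegral ℤ y := by
        have := x.val.isIntegral_coe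
        rw [← hy] at this
        exact (isIntegral_algebraMap_iff (algebraMap K L).injective).1 this
      have hyi' : IsIntegral ℤ y' := by
        have := (x⁻¹ : (𝓞 L)ˣ).val.isIntegral_coe
        rw [← hy'] at this
        exact (isIntegral_algebraMap_iff (algebraMap K L).injective).1 this
      have hmul : y * y' = 1 := by
        apply (algebraMap K L).injective
        rw [map_mul, hy, hy', map_one]
        have : ((x * x⁻¹ : (𝓞 L)ˣ) : L) = 1 := by rw [mul_inv_cancel]; simp
        simpa using this
      refine ⟨⟨⟨y, hyi⟩, ⟨y', hyi'⟩, RingOfIntegers.ext hmul, RingOfIntegers.ext (by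
        rw [mul_comm] at hmul; exact hmul)⟩, ?_⟩
      apply units_ext'
      rw [inc_val]
      exact hy
  have hEfr : Module.finrank ℤ (Additive (inc K L).range) + 1 = Fintype.card (InfinitePlace K) := by
    have e : (𝓞 K)ˣ ≃* (inc K L).range := MonoidHom.ofInjective (inc_inj K L)
    have e2 : Additive (𝓞 K)ˣ ≃ₗ[ℤ] Additive (inc K L).range :=
      (MulEquiv.toAdditive e).toIntLinearEquiv
    rw [← e2.finrank_eq, Units.finrank_eq, Units.rank]
    omega
  have hroots : Nat.card {x : (inc K L).range // x ^ l = 1} ≤ l := by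
    have h1 := card_rootsOfUnity (𝓞 L) l
    refine le_trans ?_ h1
    apply Nat.card_le_card_of_injective
      (fun x : {x : (inc K L).range // x ^ l = 1} =>
        (⟨x.1.1, by
          rw [mem_rootsOfUnity]
          have := congrArg Subtype.val x.2
          simpa using this⟩ : rootsOfUnity l (𝓞 L)))
    intro x y h
    have h2 : x.1.1 = y.1.1 := congrArg (fun z : rootsOfUnity l (𝓞 L) => (z : (𝓞 L)ˣ)) h
    exact Subtype.ext (Subtype.ext h2)
  have hNn : ∀ x : (𝓞 L)ˣ, ((inc K L).comp (Nm K L)) x =
      ∏ i ∈ Finset.range l, ((actU K L g)^[i]) x := by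
    intro x
    apply units_ext'
    rw [MonoidHom.comp_apply, inc_val, Nm_val, Algebra.norm_eq_prod_automorphisms]
    have h1 : (((∏ i ∈ Finset.range l, ((actU K L g)^[i]) x : (𝓞 L)ˣ) : 𝓞 L) : L) =
        ∏ i ∈ Finset.range l, (g ^ i) (x : L) := by
      rw [Units.coe_prod, RingOfIntegers.coe_eq_algebraMap, map_prod]
      refine Finset.prod_congr rfl fun i _ => ?_
      exact actU_iter K L g i x
    refine Eq.trans ?_ h1.symm
    symm
    apply Finset.prod_bij (fun (i : ℕ) (_ : i ∈ Finset.range l) => g ^ i)
    · intro i _; exact Finset.mem_univ _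
    · intro i hi j hj hij
      rw [Finset.mem_range] at hi hj
      rw [← hord] at hi hj
      exact pow_injOn_Iio_orderOf hi hj hij
    · intro h _
      have h2 : h ∈ Submonoid.powers g := by
        rw [mem_powers_iff_mem_zpowers]; exact hg h
      rw [mem_powers_iff_mem_range_orderOf] at h2
      rw [Finset.mem_image] at h2
      obtain ⟨i, hi, hi2⟩ := h2
      rw [hord] at hi
      exact ⟨i, hi, hi2⟩
    · intro i _; rfl
  obtain ⟨c1, c2, c3⟩ := hA (𝓞 L)ˣ l (Fintype.card (InfinitePlace K)) (actU K L g) hl
    (Group.fg_iff_monoid_fg.2 inferInstance)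
    (by
      intro x
      apply units_ext'
      rw [actU_iter, ← hord, pow_orderOf_eq_one]
      rfl)
    (by
      rw [Units.finrank_eq, Units.rank, hpl, mul_comm l]
      rw [hpl] at hposL
      omega)
    (inc K L).range ((inc K L).comp (Nm K L)) (tau K L g) hfix hNn (fun x => rfl) hEfr hroots
  have hker : ((inc K L).comp (Nm K L)).ker = (Nm K L).ker := by
    ext x
    rw [MonoidHom.mem_ker, MonoidHom.mem_ker, MonoidHom.comp_apply]
    constructor
    · intro h
      apply inc_inj K L
      rw [h, map_one]
    · intro h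
      rw [h, map_one]
  have hrel : ((inc K L).comp (Nm K L)).range.relIndex (inc K L).range = (Nm K L).range.index := by
    rw [MonoidHom.range_comp, MonoidHom.range_eq_map (inc K L),
      Subgroup.relIndex_map_map_of_injective _ _ (inc_inj K L), Subgroup.relIndex_top_right]
  rw [hker] at c2 c3
  rw [hrel] at c1 c3
  exact ⟨c1, c2, c3⟩

end Pool.Agent.Helper3.RG
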